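import Pool.Agent.Run7.h630.ML.Defs

/-!
# Infinite volume limits
-/

open MeasureTheory Filter Topology

namespace Run7.h630.MQ

open Run7.h4.YM Run7.h630.WL

/-- `ν` is an infinite volume limit: the weak limit, along a subsequence, of the theories on the
tori `(Z/2p)² x (Z/l)²` -/
structure IsInfVol {N l : ℕ} [NeZero l] [MeasurableSpace (SU N)] (k : ℕ) (μ : Measure (SU N))
    (β : ℝ) (ν : Measure (LinkZ l → SU N)) : Prop where
  prob : IsProbabilityMeasure ν
  lim : ∃ s : ℕ → ℕ, Tendsto s atTop atTop ∧ ∀ F : (LinkZ l → SU N) → ℝ, Continuous F →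
    Tendsto (fun j => expect μ k β
      fun U : Link (2 * (s j + 1)) (2 * (s j + 1)) l → SU N => F (per U)) atTop
      (𝓝 (∫ V, F V ∂ν))

end Run7.h630.MQ
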