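import Pool.Agent.Run7.h630.MQ.Iface
import Pool.Agent.Run7.h630.MQ.Defs
import Pool.Agent.Run7.h630.ML.Iface

/-!
# The massive lattice operator on the torus, and the coefficients of the test functions
-/

open MeasureTheory Matrix Filter Topology
open scoped ComplexConjugate
open Run7.h4.YM Run7.h630.WL Run7.h630.ML

namespace Run7.h630.MQ

set_option linter.unusedSectionVars false

noncomputable section

section op

variable {n L : ℕ} [NeZero n] [NeZero L]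

lemma KK_bound {x0 : ℝ} (hx : 0 < x0) (g : ZMod n × ZMod L → ℂ) (u : ZMod n × ZMod L) :
    (4 + x0) * ‖g u‖ ≤ ‖KK x0 g u‖ + ‖g (u + (1, 0))‖ + ‖g (u - (1, 0))‖ + ‖g (u + (0, 1))‖ +
      ‖g (u - (0, 1))‖ := by
  have h1 : (4 + x0 : ℂ) * g u = KK x0 g u + g (u + (1, 0)) + g (u - (1, 0)) + g (u + (0, 1)) +
      g (u - (0, 1)) := by
    unfold KK
    ring
  have h2 : ‖(4 + x0 : ℂ) * g u‖ = (4 + x0) * ‖g u‖ := by
    rw [norm_mul]
    congr 1
    have : (4 + x0 : ℂ) = ((4 + x0 : ℝ) : ℂ) := by push_cast; ring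
    rw [this, Complex.norm_real, Real.norm_eq_abs, abs_of_pos (by linarith)]
  rw [← h2, h1]
  refine (norm_add_le _ _).trans (add_le_add_left ?_ _)
  refine (norm_add_le _ _).trans (add_le_add_left ?_ _)
  refine (norm_add_le _ _).trans (add_le_add_left ?_ _)
  exact norm_add_le _ _

lemma KK_l1 {x0 : ℝ} (hx : 0 < x0) (g : ZMod n × ZMod L → ℂ) :
    x0 * ∑ u, ‖g u‖ ≤ ∑ u, ‖KK x0 g u‖ := by
  have h1 : ∑ u, (4 + x0) * ‖g u‖ ≤ ∑ u, (‖KK x0 g u‖ + ‖g (u + (1, 0))‖ + ‖g (u - (1, 0))‖ +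
      ‖g (u + (0, 1))‖ + ‖g (u - (0, 1))‖) := Finset.sum_le_sum fun u _ => KK_bound hx g u
  have e1 : ∀ v : ZMod n × ZMod L, ∑ u, ‖g (u + v)‖ = ∑ u, ‖g u‖ := fun v =>
    Equiv.sum_comp (Equiv.addRight v) (fun u => ‖g u‖)
  have e2 : ∀ v : ZMod n × ZMod L, ∑ u, ‖g (u - v)‖ = ∑ u, ‖g u‖ := fun v =>
    Equiv.sum_comp (Equiv.subRight v) (fun u => ‖g u‖)
  rw [← Finset.mul_sum] at h1
  simp only [Finset.sum_add_distrib, e1, e2] at h1
  linarith

lemma KK_sup {x0 : ℝ} (hx : 0 < x0) (g : ZMod n × ZMod L → ℂ) {M : ℝ}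
    (hM : ∀ u, ‖KK x0 g u‖ ≤ M) (u : ZMod n × ZMod L) : x0 * ‖g u‖ ≤ M := by
  obtain ⟨v, -, hv⟩ := Finset.exists_max_image Finset.univ (fun u => ‖g u‖)
    ⟨u, Finset.mem_univ u⟩
  have h1 := KK_bound hx g v
  have h2 := hM v
  have h3 := hv (v + (1, 0)) (Finset.mem_univ _)
  have h4 := hv (v - (1, 0)) (Finset.mem_univ _)
  have h5 := hv (v + (0, 1)) (Finset.mem_univ _)
  have h6 := hv (v - (0, 1)) (Finset.mem_univ _)
  have h7 := hv u (Finset.mem_univ _)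
  nlinarith

/-- the operator as a linear map -/
def KKl (n L : ℕ) (x0 : ℝ) : (ZMod n × ZMod L → ℂ) →ₗ[ℂ] (ZMod n × ZMod L → ℂ) where
  toFun g := KK x0 g
  map_add' f g := by
    funext u
    simp only [KK, Pi.add_apply]
    ring
  map_smul' c g := by
    funext u
    simp only [KK, Pi.smul_apply, smul_eq_mul, RingHom.id_apply]
    ring

lemma KK_surj {x0 : ℝ} (hx : 0 < x0) (f : ZMod n × ZMod L → ℂ) : ∃ g, KK x0 g = f := by
  have hinj : Function.Injective (KKl n L x0) := by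
    rw [injective_iff_map_eq_zero]
    intro g hg
    funext u
    have h1 := KK_sup hx g (M := 0) (fun u => by
      have : KK x0 g u = 0 := congrFun hg u
      rw [this, norm_zero]) u
    have h2 : ‖g u‖ = 0 := le_antisymm (by nlinarith [norm_nonneg (g u)]) (norm_nonneg _)
    exact norm_eq_zero.1 h2
  exact (LinearMap.injective_iff_surjective.1 hinj) f

lemma KK_smul (x0 : ℝ) (c : ℂ) (g : ZMod n × ZMod L → ℂ) :
    KK x0 (fun u => c * g u) = fun u => c * KK x0 g u := by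
  funext u
  unfold KK
  ring

end op

/-- the box -/
def bx (R : ℕ) : Finset (ℤ × ℤ) := Finset.Icc (-(R : ℤ)) R ×ˢ Finset.Icc (-(R : ℤ)) R

lemma bx_card (R : ℕ) : (bx R).card = (2 * R + 1) ^ 2 := by
  unfold bx
  rw [Finset.card_product, Int.card_Icc]
  have : ((R : ℤ) + 1 - -(R : ℤ)).toNat = 2 * R + 1 := by omega
  rw [this, sq]

/-- sums over the torus of functions of the centred coordinates -/
lemma sum_torus {M : Type*} [AddCommMonoid M] {e R : ℕ} [NeZero e] (he : 2 * R < e)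
    (G : ℤ × ℤ → ZMod e × ZMod e → M) (hG : ∀ x, x ∉ bx R → ∀ u, G x u = 0) :
    ∑ u : ZMod e × ZMod e, G (u.1.valMinAbs, u.2.valMinAbs) u =
      ∑ x ∈ bx R, G x ((x.1 : ZMod e), (x.2 : ZMod e)) := by
  classical
  symm
  have hvm : ∀ x ∈ bx R, (((x.1 : ZMod e)).valMinAbs, ((x.2 : ZMod e)).valMinAbs) = x := by
    intro x hx
    simp only [bx, Finset.mem_product, Finset.mem_Icc] at hx
    refine Prod.ext ?_ ?_
    · exact (ZMod.valMinAbs_spec _ _).2 ⟨rfl, by constructor <;> omega⟩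
    · exact (ZMod.valMinAbs_spec _ _).2 ⟨rfl, by constructor <;> omega⟩
  refine Finset.sum_bij_ne_zero (fun x _ _ => ((x.1 : ZMod e), (x.2 : ZMod e)))
    (fun x _ _ => Finset.mem_univ _) ?_ ?_ ?_
  · intro x hx _ y hy _ hxy
    simp only [Prod.mk.injEq] at hxy
    rw [← hvm x hx, ← hvm y hy, hxy.1, hxy.2]
  · intro u _ hu
    have h1 : (u.1.valMinAbs, u.2.valMinAbs) ∈ bx R := by
      by_contra h
      exact hu (hG _ h u)
    refine ⟨(u.1.valMinAbs, u.2.valMinAbs), h1, ?_, ?_⟩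
    · simp only [ZMod.coe_valMinAbs]
      exact hu
    · simp only [ZMod.coe_valMinAbs]
  · intro x hx _
    rw [hvm x hx]

lemma pt_point (l : ℕ) (x : ℤ × ℤ) : pt l x = point l x := rfl

/-- the support in the box -/
lemma supp_bx {F : E2 → ℂ} {ρ l : ℕ} (hρ : ∀ x, F x ≠ 0 → ‖x‖ ≤ ρ) [NeZero l]
    (x : ℤ × ℤ) (hx : x ∉ bx (ρ * l)) : F (pt l x) = 0 := by
  by_contra h
  have h1 := hρ _ h
  have hl0 : (0 : ℝ) < l := by exact_mod_cast NeZero.pos l
  have hc : ∀ i : Fin 2, |(pt l x) i| ≤ ρ := fun i =>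
    ((Real.norm_eq_abs _).symm.le.trans (PiLp.norm_apply_le _ i)).trans h1
  have h2 := hc 0
  have h3 := hc 1
  have e0 : (pt l x) 0 = (x.1 : ℝ) / l := by simp [pt]
  have e1 : (pt l x) 1 = (x.2 : ℝ) / l := by simp [pt]
  rw [e0, abs_div, abs_of_pos hl0, div_le_iff₀ hl0] at h2
  rw [e1, abs_div, abs_of_pos hl0, div_le_iff₀ hl0] at h3
  apply hx
  simp only [bx, Finset.mem_product, Finset.mem_Icc, ← abs_le]
  constructor
  · have : ((|x.1| : ℤ) : ℝ) ≤ ((ρ * l : ℕ) : ℝ) := by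
      push_cast; exact h2
    exact_mod_cast this
  · have : ((|x.2| : ℤ) : ℝ) ≤ ((ρ * l : ℕ) : ℝ) := by
      push_cast; exact h3
    exact_mod_cast this

/-- the norm of the restriction -/
lemma rs_l1 {F : E2 → ℂ} {ρ l e : ℕ} (hρ : ∀ x, F x ≠ 0 → ‖x‖ ≤ ρ) [NeZero l] [NeZero e]
    (he : 2 * (ρ * l) < e) (h1 : 1 ≤ ρ) {M : ℝ} (hM : ∀ x, ‖F x‖ ≤ M) :
    ∑ u : ZMod e × ZMod e, ‖rs l e F u‖ ≤ 9 * ρ ^ 2 * M * l ^ 2 := by
  have hl : 1 ≤ l := NeZero.one_le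
  have hM0 : 0 ≤ M := (norm_nonneg _).trans (hM 0)
  have h2 := sum_torus (M := ℝ) he (fun x _ => ‖F (pt l x)‖) (fun x hx _ => by
    rw [supp_bx hρ x hx, norm_zero])
  unfold rs
  rw [h2]
  refine (Finset.sum_le_card_nsmul _ _ M fun x _ => hM _).trans ?_
  rw [bx_card, nsmul_eq_mul]
  have h3 : (2 * (ρ * l) + 1 : ℝ) ≤ 3 * (ρ * l) := by
    have : (1 : ℝ) ≤ ρ * l := by
      have : 1 ≤ ρ * l := Nat.one_le_iff_ne_zero.2 (by positivity)
      exact_mod_cast this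
    linarith
  have h4 : (0 : ℝ) ≤ 2 * (ρ * l) + 1 := by positivity
  calc (((2 * (ρ * l) + 1) ^ 2 : ℕ) : ℝ) * M = (2 * (ρ * l) + 1 : ℝ) ^ 2 * M := by push_cast; ring
    _ ≤ (3 * (ρ * l) : ℝ) ^ 2 * M := by gcongr
    _ = _ := by ring

section mode

variable {N l : ℕ} [NeZero l]

lemma lp_loop {n L : ℕ} (U : Link n L l → SU N) (x : ℤ × ℤ) (y : ZMod l) :
    loop (per U) x y = lp U ((x.1 : ZMod n), (x.2 : ZMod L), 0, y) := by
  unfold loop lp per
  congr 1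
  refine List.map_congr_left fun t _ => ?_
  simp [dir]

lemma mode_per {n L k : ℕ} (U : Link n L l → SU N) (j : ℕ × ℤ) (x : ℤ × ℤ) :
    mode k (per U) j x = md k U j ((x.1 : ZMod n), (x.2 : ZMod L)) := by
  unfold mode md W
  refine Finset.sum_congr rfl fun t _ => ?_
  rw [lp_loop]

/-- the field on the torus -/
lemma field_per {e k ρ : ℕ} [NeZero e] (he : 2 * (ρ * l) < e) {F : E2 → ℂ}
    (hρ : ∀ x, F x ≠ 0 → ‖x‖ ≤ ρ) (β : ℝ) (j : ℕ × ℤ) (U : Link e e l → SU N) :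
    field k β (per U) j F = (Real.sqrt β : ℂ) *
      ∑ u, (((j.1 * Real.sqrt N * l ^ 3 : ℝ)⁻¹ : ℝ) : ℂ) * rs l e F u * md k U j u := by
  have h2 := sum_torus (M := ℂ) he (fun x u => F (pt l x) * md k U j u) (fun x hx u => by
    rw [supp_bx hρ x hx, zero_mul])
  unfold field
  rw [tsum_eq_sum (s := bx (ρ * l)) (fun x hx => by
    rw [← pt_point, supp_bx hρ x hx, zero_mul])]
  have h3 : ∑ x ∈ bx (ρ * l), F (point l x) * mode k (per U) j x =
      ∑ u, rs l e F u * md k U j u := by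
    unfold rs
    rw [h2]
    refine Finset.sum_congr rfl fun x _ => ?_
    rw [mode_per, pt_point]
  rw [h3, div_eq_mul_inv]
  push_cast
  rw [Finset.mul_sum, Finset.mul_sum]
  refine Finset.sum_congr rfl fun u _ => ?_
  ring

end mode

end

end Run7.h630.MQ
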