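import Pool.Agent.Run7.h630.MQ.Defs
import Pool.Agent.Run7.h4.YM.Sys

/-!
# Existence of infinite volume limits
-/

open MeasureTheory Filter Topology
open Run7.h4.YM Run7.h630.WL

namespace Run7.h630.MQ

set_option linter.unusedSectionVars false

noncomputable section

variable {N l : ℕ} [NeZero N] [NeZero l] [MeasurableSpace (SU N)] [BorelSpace (SU N)]

lemma per_cont {n L : ℕ} : Continuous (per : (Link n L l → SU N) → LinkZ l → SU N) :=
  continuous_pi fun _ => continuous_apply _

/-- the law of the periodic extension -/
lemma exists_law (μ : Measure (SU N)) [IsProbabilityMeasure μ] (n L k : ℕ) [NeZero n] [NeZero L]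
    (β : ℝ) : ∃ P : ProbabilityMeasure (LinkZ l → SU N), ∀ F : (LinkZ l → SU N) → ℝ,
      Continuous F → ∫ V, F V ∂(P : Measure (LinkZ l → SU N)) =
        expect μ k β (fun U : Link n L l → SU N => F (per U)) := by
  have hper : Continuous (per : (Link n L l → SU N) → LinkZ l → SU N) := per_cont
  have hint : Integrable (fun U : Link n L l → SU N =>
      Real.exp (-(β * action k U))) (Measure.pi fun _ => μ) := by
    have hc : Continuous fun U : Link n L l → SU N => Real.exp (-(β * action k U)) :=
      Real.continuous_exp.comp ((continuous_const.mul (cont_action k)).neg)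
    exact hc.integrable_of_hasCompactSupport (HasCompactSupport.of_compactSpace _)
  have h1 := isProbabilityMeasure_tilted
    (f := fun U : Link n L l → SU N => -(β * action k U)) hint
  refine ⟨⟨((Measure.pi fun _ => μ).tilted fun U : Link n L l → SU N =>
    -(β * action k U)).map per, Measure.isProbabilityMeasure_map hper.aemeasurable⟩,
    fun F hF => ?_⟩
  show ∫ V, F V ∂(((Measure.pi fun _ => μ).tilted
    fun U : Link n L l → SU N => -(β * action k U)).map per) = _
  rw [integral_map hper.aemeasurable hF.aestronglyMeasurable, integral_tilted]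
  unfold expect
  rw [← integral_div]
  refine integral_congr_ae (Filter.Eventually.of_forall fun U => ?_)
  simp only [smul_eq_mul]
  ring

/-- infinite volume limits exist -/
theorem exists_infVol (k : ℕ) (μ : Measure (SU N)) [IsProbabilityMeasure μ] (β : ℝ) :
    ∃ ν : Measure (LinkZ l → SU N), IsInfVol k μ β ν := by
  have hP : ∀ p : ℕ, ∃ P : ProbabilityMeasure (LinkZ l → SU N),
      ∀ F : (LinkZ l → SU N) → ℝ, Continuous F →
        ∫ V, F V ∂(P : Measure (LinkZ l → SU N)) =
          expect μ k β (fun U : Link (2 * (p + 1)) (2 * (p + 1)) l → SU N => F (per U)) :=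
    fun p => exists_law μ _ _ k β
  choose P hP using hP
  obtain ⟨ν, s, hs, hlim⟩ := CompactSpace.tendsto_subseq P
  refine ⟨ν, ⟨inferInstance, s, hs.tendsto_atTop, fun F hF => ?_⟩⟩
  have h1 := (ProbabilityMeasure.tendsto_iff_forall_integral_tendsto.1 hlim)
    (BoundedContinuousFunction.mkOfCompact ⟨F, hF⟩)
  simp only [Function.comp_apply, BoundedContinuousFunction.mkOfCompact_apply,
    ContinuousMap.coe_mk] at h1
  simpa only [hP _ F hF] using h1

end

end Run7.h630.MQ
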