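import Pool.Agent.Run7.h630.MQ.Fin2
import Pool.Agent.Run7.h630.MQ.Ex
import Pool.Agent.Run7.h593.MQ.T45
import Pool.Agent.Run7.h370.MQ.A
import Pool.Agent.Run7.h182.MQ.C2
import Pool.Agent.Run7.h4.MQ.E
import Pool.Agent.Run7.h863.MQ.F
import Pool.Agent.Run7.h771.MQ.E1
import Pool.Agent.Run7.h593.ML.SOL
import Pool.Agent.Run7.h593.ML.SUM
import Pool.Agent.Run7.h593.ML.STA
import Pool.Agent.Run7.h796.ML.RIE
import Pool.Agent.Run7.h885.ML.TAY
import Pool.Agent.Run7.h885.ML.ASM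

/-!
# The massive continuum limit at polynomially large `β`: assembly
-/

open MeasureTheory Filter Topology
open scoped FourierTransform ContDiff
open Run7.h4.YM Run7.h630.WL Run7.h630.ML

namespace Run7.h630.MQ

/-- the characteristic function of the loops, quantitatively -/
theorem t_SF : S_F :=
  Run7.h863.MQ.t_F
    (Run7.h370.MQ.t_A Run7.h593.MQ.t_T1 Run7.h593.MQ.t_T2 (Run7.h593.MQ.t_T5 Run7.h593.MQ.t_T3))
    (Run7.h370.MQ.t_B (Run7.h593.MQ.t_T4 Run7.h593.MQ.t_T3)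
      (Run7.h593.MQ.t_T5 Run7.h593.MQ.t_T3))
    Run7.h182.MQ.t_C' (Run7.h4.MQ.t_E Run7.h771.MQ.t_E1)

/-- the continuum limit of the lattice Green function -/
theorem t_LIM : S_LIM :=
  Pool.Agent.Run7.h885.ML.t_ASM Run7.h593.ML.t_SOL Pool.Agent.Run7.h885.ML.t_TAY
    Run7.h796.ML.t_RIE Run7.h593.ML.t_SUM Run7.h593.ML.t_STA

end Run7.h630.MQ
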