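import Pool.Agent.Run7.h630.MQ.Nrm
import Pool.Agent.Run7.h630.MQ.Ex

/-!
# The massive continuum limit at polynomially large `β`: final assembly
-/

open MeasureTheory Matrix Filter Topology
open scoped ComplexConjugate FourierTransform ContDiff
open Run7.h4.YM Run7.h630.WL Run7.h630.ML

namespace Run7.h630.MQ

set_option linter.unusedSectionVars false
set_option linter.style.haveILetI false

noncomputable section

section cont

variable {N l : ℕ} [NeZero l]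

lemma loop_cont (x : ℤ × ℤ) (y : ZMod l) :
    Continuous fun V : LinkZ l → SU N => loop V x y := by
  unfold loop
  have h : ∀ L : List ℕ, Continuous fun V : LinkZ l → SU N =>
      (L.map fun t : ℕ => V (2, (x.1, x.2, (t : ZMod l), y))).prod := by
    intro L
    induction L with
    | nil => exact continuous_const
    | cons t L ih =>
      simp only [List.map_cons, List.prod_cons]
      exact (continuous_apply _).mul ih
  exact h _

lemma mode_cont (k : ℕ) (j : ℕ × ℤ) (x : ℤ × ℤ) :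
    Continuous fun V : LinkZ l → SU N => mode k V j x := by
  unfold mode
  refine continuous_finsetSum _ fun t _ => continuous_const.mul ?_
  have h1 : Continuous fun V : LinkZ l → SU N => (loop V x (1 + (t : ZMod l)) ^ j.1).1 :=
    continuous_subtype_val.comp ((loop_cont x _).pow j.1)
  exact h1.matrix_trace

lemma field_cont {k ρ : ℕ} {F : E2 → ℂ} (hρ : ∀ x, F x ≠ 0 → ‖x‖ ≤ ρ) (β : ℝ) (j : ℕ × ℤ) :
    Continuous fun V : LinkZ l → SU N => field k β V j F := by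
  have h1 : ∀ V : LinkZ l → SU N, field k β V j F =
      (Real.sqrt β / (j.1 * Real.sqrt N * l ^ 3) : ℝ) *
        ∑ x ∈ bx (ρ * l), F (point l x) * mode k V j x := by
    intro V
    unfold field
    rw [tsum_eq_sum (s := bx (ρ * l)) (fun x hx => by
      rw [← pt_point, supp_bx hρ x hx, zero_mul])]
  simp only [h1]
  exact continuous_const.mul (continuous_finsetSum _ fun x _ =>
    continuous_const.mul (mode_cont k j x))

end cont

/-- the integral of the exponential -/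
lemma int_exp {X : Type*} [MeasurableSpace X] {ν : Measure X} [IsProbabilityMeasure ν] {S : X → ℝ}
    (hS : Measurable S) : ∫ V, Complex.exp (Complex.I * (S V : ℝ)) ∂ν =
      ((∫ V, Real.cos (S V) ∂ν : ℝ) : ℂ) + ((∫ V, Real.sin (S V) ∂ν : ℝ) : ℂ) * Complex.I := by
  have h1 : ∀ V, Complex.exp (Complex.I * (S V : ℝ)) =
      ((Real.cos (S V) : ℝ) : ℂ) + ((Real.sin (S V) : ℝ) : ℂ) * Complex.I := by
    intro V
    rw [mul_comm, Complex.exp_mul_I, Complex.ofReal_cos, Complex.ofReal_sin]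
  have i1 : Integrable (fun V => ((Real.cos (S V) : ℝ) : ℂ)) ν :=
    Integrable.ofReal ((integrable_const (1 : ℝ)).mono'
      (Real.measurable_cos.comp hS).aestronglyMeasurable
      (Eventually.of_forall fun V => by rw [Real.norm_eq_abs]; exact Real.abs_cos_le_one _))
  have i2 : Integrable (fun V => ((Real.sin (S V) : ℝ) : ℂ)) ν :=
    Integrable.ofReal ((integrable_const (1 : ℝ)).mono'
      (Real.measurable_sin.comp hS).aestronglyMeasurable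
      (Eventually.of_forall fun V => by rw [Real.norm_eq_abs]; exact Real.abs_sin_le_one _))
  simp only [h1]
  rw [integral_add i1 (i2.mul_const _), integral_mul_const, integral_complex_ofReal,
    integral_complex_ofReal]

/-- the factor -/
def kf (N : ℕ) (j : ℕ × ℤ) (l : ℕ) : ℝ := (j.1 * Real.sqrt N * l ^ 3)⁻¹

lemma kf_nonneg (N : ℕ) (j : ℕ × ℤ) (l : ℕ) : 0 ≤ kf N j l := by
  unfold kf
  positivity

lemma kf_le {N l : ℕ} [NeZero N] [NeZero l] {j : ℕ × ℤ} (hj : 1 ≤ j.1) :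
    kf N j l ≤ ((l : ℝ) ^ 3)⁻¹ := by
  have hl : (0 : ℝ) < l := by exact_mod_cast NeZero.pos l
  have hN : (1 : ℝ) ≤ N := by exact_mod_cast NeZero.one_le
  have h2 : (1 : ℝ) ≤ Real.sqrt N := by
    rw [← Real.sqrt_one]; exact Real.sqrt_le_sqrt hN
  have hc : (1 : ℝ) ≤ (j.1 : ℝ) := by exact_mod_cast hj
  have h4 : (1 : ℝ) ≤ j.1 * Real.sqrt N := one_le_mul_of_one_le_of_one_le hc h2
  unfold kf
  apply inv_anti₀ (by positivity)
  nlinarith [pow_pos hl 3]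

/-- the rate -/
lemma rate {β l : ℝ} (hl : 1 ≤ l) (hβ : l ^ 11 ≤ β) :
    l ^ 5 * (1 + Real.log β) / Real.sqrt β ≤ 45 * l ^ (-(1 / 4) : ℝ) := by
  have hl0 : 0 < l := by linarith
  have hβ1 : 1 ≤ β := (one_le_pow₀ hl).trans hβ
  have hβ0 : 0 < β := by linarith
  have h1 := Real.log_le_rpow_div (x := β) hβ0.le (show (0 : ℝ) < 1 / 44 by norm_num)
  have h2 : (1 : ℝ) ≤ β ^ (1 / 44 : ℝ) := Real.one_le_rpow hβ1 (by norm_num)
  have h3 : 1 + Real.log β ≤ 45 * β ^ (1 / 44 : ℝ) := by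
    have : β ^ (1 / 44 : ℝ) / (1 / 44) = 44 * β ^ (1 / 44 : ℝ) := by ring
    rw [this] at h1
    linarith
  have hs : 0 < Real.sqrt β := Real.sqrt_pos.2 hβ0
  rw [div_le_iff₀ hs]
  have h4 : l ^ (21 / 4 : ℝ) ≤ β ^ (21 / 44 : ℝ) := by
    have h5 : (l ^ 11) ^ (21 / 44 : ℝ) = l ^ (21 / 4 : ℝ) := by
      rw [← Real.rpow_natCast, ← Real.rpow_mul hl0.le]
      norm_num
    rw [← h5]
    exact Real.rpow_le_rpow (by positivity) hβ (by norm_num)
  have h6 : l ^ 5 = l ^ (-(1 / 4) : ℝ) * l ^ (21 / 4 : ℝ) := by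
    rw [← Real.rpow_add hl0, ← Real.rpow_natCast]
    norm_num
  have h7 : Real.sqrt β = β ^ (21 / 44 : ℝ) * β ^ (1 / 44 : ℝ) := by
    rw [← Real.rpow_add hβ0, Real.sqrt_eq_rpow]
    norm_num
  have h8 : 0 < l ^ (-(1 / 4) : ℝ) := Real.rpow_pos_of_pos hl0 _
  have h9 : 0 < β ^ (1 / 44 : ℝ) := Real.rpow_pos_of_pos hβ0 _
  calc l ^ 5 * (1 + Real.log β) ≤ l ^ 5 * (45 * β ^ (1 / 44 : ℝ)) := by gcongr
    _ = 45 * l ^ (-(1 / 4) : ℝ) * (l ^ (21 / 4 : ℝ) * β ^ (1 / 44 : ℝ)) := by rw [h6]; ring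
    _ ≤ 45 * l ^ (-(1 / 4) : ℝ) * (β ^ (21 / 44 : ℝ) * β ^ (1 / 44 : ℝ)) := by gcongr
    _ = _ := by rw [h7]

/-- the bound of the error -/
lemma Er_le {C : ℝ} (hC : 0 < C) {N k l m ρ : ℕ} [NeZero N] [NeZero l] [NeZero m]
    (hm : 2 * (ρ * l) < 2 * m) (hρ1 : 1 ≤ ρ) {β : ℝ} (hβ : 1 ≤ β) {J : Finset (ℕ × ℤ)}
    (hJ : ∀ j ∈ J, 1 ≤ j.1 ∧ 0 < mass N k j ∧ mass N k j ≤ Real.pi / 2 * l)
    {F : ℕ × ℤ → E2 → ℂ} (hρ : ∀ j ∈ J, ∀ x, F j x ≠ 0 → ‖x‖ ≤ ρ) {M : ℝ} (hM0 : 0 ≤ M)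
    (hM : ∀ j ∈ J, ∀ x, ‖F j x‖ ≤ M) (g : ℕ × ℤ → ZMod (2 * m) × ZMod (2 * m) → ℂ)
    (hg : ∀ j ∈ J, KK (2 - 2 * Real.cos (mass N k j / l)) (g j) = rs l (2 * m) (F j)) :
    Er C m m l β J (fun j u => (kf N j l : ℂ) * rs l (2 * m) (F j) u)
      (fun j u => (kf N j l : ℂ) * g j u) ≤
      C * (9 * ρ ^ 2 * M * ∑ j ∈ J, Real.pi ^ 2 / (4 * mass N k j ^ 2) +
        9 * ρ ^ 2 * M * M * J.card * ∑ j ∈ J, Real.pi ^ 2 / (4 * mass N k j ^ 2)) *
        (l ^ 5 * (1 + Real.log β) / Real.sqrt β) := by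
  haveI : NeZero (2 * m) := ⟨by have := NeZero.ne m; omega⟩
  have hl : (1 : ℝ) ≤ l := by exact_mod_cast NeZero.one_le
  have hl0 : (0 : ℝ) < l := by linarith
  have hlog : 0 ≤ Real.log β := Real.log_nonneg hβ
  have hβ0 : 0 < β := by linarith
  -- the mass
  have hx0 : ∀ j ∈ J, 4 * mass N k j ^ 2 / (Real.pi ^ 2 * l ^ 2) ≤
      2 - 2 * Real.cos (mass N k j / l) := by
    intro j hj
    obtain ⟨-, h1, h2⟩ := hJ j hj
    have h3 : |mass N k j / l| ≤ Real.pi := by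
      rw [abs_of_pos (by positivity), div_le_iff₀ hl0]
      refine h2.trans ?_
      nlinarith [Real.pi_pos, mul_pos Real.pi_pos hl0]
    have h4 := Real.cos_le_one_sub_mul_cos_sq h3
    have h5 : 4 * mass N k j ^ 2 / (Real.pi ^ 2 * l ^ 2) =
        2 * (2 / Real.pi ^ 2 * (mass N k j / l) ^ 2) := by
      field_simp
      ring
    rw [h5]
    linarith
  have hx1 : ∀ j ∈ J, 0 < 2 - 2 * Real.cos (mass N k j / l) := fun j hj =>
    lt_of_lt_of_le (by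
      have := (hJ j hj).2.1
      have := Real.pi_pos
      positivity) (hx0 j hj)
  obtain ⟨q, hq⟩ : ∃ q : ℕ × ℤ → ℝ, q = fun j => Real.pi ^ 2 / (4 * mass N k j ^ 2) := ⟨_, rfl⟩
  have hq' : ∀ j, Real.pi ^ 2 / (4 * mass N k j ^ 2) = q j := fun j => by rw [hq]
  have hq0 : ∀ j, 0 ≤ q j := fun j => by rw [← hq']; positivity
  have hinv : ∀ j ∈ J, (2 - 2 * Real.cos (mass N k j / l))⁻¹ ≤ q j * l ^ 2 := by
    intro j hj
    have h1 := (hJ j hj).2.1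
    have h2 := Real.pi_pos
    have h3 : (0 : ℝ) < 4 * mass N k j ^ 2 / (Real.pi ^ 2 * l ^ 2) := by positivity
    refine (inv_anti₀ h3 (hx0 j hj)).trans (le_of_eq ?_)
    rw [← hq', inv_div]
    field_simp
  -- the norms
  have n1 : ∀ j ∈ J, ∑ u, ‖rs l (2 * m) (F j) u‖ ≤ 9 * ρ ^ 2 * M * l ^ 2 := fun j hj =>
    rs_l1 (hρ j hj) hm hρ1 (hM j hj)
  have n2 : ∀ j ∈ J, ∑ u, ‖g j u‖ ≤ q j * l ^ 2 * (9 * ρ ^ 2 * M * l ^ 2) := by
    intro j hj
    have h1 := KK_l1 (hx1 j hj) (g j)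
    rw [hg j hj] at h1
    have h2 := h1.trans (n1 j hj)
    have h3 : ∑ u, ‖g j u‖ ≤ (2 - 2 * Real.cos (mass N k j / l))⁻¹ * (9 * ρ ^ 2 * M * l ^ 2) := by
      rw [inv_mul_eq_div, le_div_iff₀ (hx1 j hj), mul_comm]
      exact h2
    refine h3.trans (mul_le_mul_of_nonneg_right (hinv j hj) (by positivity))
  have n3 : ∀ j ∈ J, ∀ u, ‖g j u‖ ≤ q j * l ^ 2 * M := by
    intro j hj u
    have h1 := KK_sup (hx1 j hj) (g j) (M := M) (fun u => by
      rw [hg j hj]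
      exact hM j hj _) u
    have h3 : ‖g j u‖ ≤ (2 - 2 * Real.cos (mass N k j / l))⁻¹ * M := by
      rw [inv_mul_eq_div, le_div_iff₀ (hx1 j hj), mul_comm]
      exact h1
    exact h3.trans (mul_le_mul_of_nonneg_right (hinv j hj) hM0)
  have hk : ∀ j ∈ J, kf N j l ≤ ((l : ℝ) ^ 3)⁻¹ := fun j hj => kf_le (hJ j hj).1
  have nn : ∀ (j : ℕ × ℤ) (z : ℂ), ‖(kf N j l : ℂ) * z‖ = kf N j l * ‖z‖ := fun j z => by
    rw [norm_mul, Complex.norm_real, Real.norm_eq_abs, abs_of_nonneg (kf_nonneg N j l)]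
  have hkf := kf_nonneg N
  -- the first sum
  have s1 : ∑ j ∈ J, ∑ u, ‖(kf N j l : ℂ) * g j u‖ ≤ 9 * ρ ^ 2 * M * (∑ j ∈ J, q j) * l := by
    simp only [nn, ← Finset.mul_sum]
    rw [Finset.mul_sum, Finset.sum_mul]
    refine Finset.sum_le_sum fun j hj => ?_
    calc kf N j l * ∑ u, ‖g j u‖ ≤ ((l : ℝ) ^ 3)⁻¹ * (q j * l ^ 2 * (9 * ρ ^ 2 * M * l ^ 2)) :=
          mul_le_mul (hk j hj) (n2 j hj) (Finset.sum_nonneg fun _ _ => norm_nonneg _)
            (by positivity)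
      _ = _ := by field_simp
  -- the second sum
  have s2 : ∑ i ∈ J, ∑ j ∈ J, ∑ u, ‖(kf N i l : ℂ) * rs l (2 * m) (F i) u‖ *
      ‖(kf N j l : ℂ) * g j u‖ ≤ 9 * ρ ^ 2 * M * M * J.card * (∑ j ∈ J, q j) * ((l : ℝ) ^ 2)⁻¹ := by
    have h1 : ∀ i ∈ J, ∑ j ∈ J, ∑ u, ‖(kf N i l : ℂ) * rs l (2 * m) (F i) u‖ *
        ‖(kf N j l : ℂ) * g j u‖ ≤ 9 * ρ ^ 2 * M * M * (∑ j ∈ J, q j) * ((l : ℝ) ^ 2)⁻¹ := by
      intro i hi
      rw [Finset.mul_sum, Finset.sum_mul]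
      refine Finset.sum_le_sum fun j hj => ?_
      have h2 : ∀ u, ‖(kf N i l : ℂ) * rs l (2 * m) (F i) u‖ * ‖(kf N j l : ℂ) * g j u‖ ≤
          (((l : ℝ) ^ 3)⁻¹ * (((l : ℝ) ^ 3)⁻¹ * (q j * l ^ 2 * M))) *
            ‖rs l (2 * m) (F i) u‖ := by
        intro u
        rw [nn, nn]
        have h3 := mul_le_mul (hk j hj) (n3 j hj u) (norm_nonneg _) (by positivity)
        have h4 : kf N i l * ‖rs l (2 * m) (F i) u‖ ≤
            ((l : ℝ) ^ 3)⁻¹ * ‖rs l (2 * m) (F i) u‖ :=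
          mul_le_mul_of_nonneg_right (hk i hi) (norm_nonneg _)
        refine (mul_le_mul h4 h3 (mul_nonneg (hkf j l) (norm_nonneg _))
          (by positivity)).trans (le_of_eq ?_)
        ring
      refine (Finset.sum_le_sum fun u _ => h2 u).trans ?_
      rw [← Finset.mul_sum]
      have h5 := hq0 j
      calc (((l : ℝ) ^ 3)⁻¹ * (((l : ℝ) ^ 3)⁻¹ * (q j * l ^ 2 * M))) *
            ∑ u, ‖rs l (2 * m) (F i) u‖ ≤
          (((l : ℝ) ^ 3)⁻¹ * (((l : ℝ) ^ 3)⁻¹ * (q j * l ^ 2 * M))) *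
            (9 * ρ ^ 2 * M * l ^ 2) := mul_le_mul_of_nonneg_left (n1 i hi) (by positivity)
        _ = _ := by field_simp
    refine (Finset.sum_le_card_nsmul _ _ _ h1).trans (le_of_eq ?_)
    rw [nsmul_eq_mul]
    ring
  -- the rates
  have hs : 0 < Real.sqrt β := Real.sqrt_pos.2 hβ0
  obtain ⟨δ, hδ⟩ : ∃ δ, δ = (1 + Real.log β) / Real.sqrt β := ⟨_, rfl⟩
  have hδ0 : 0 ≤ δ := by rw [hδ]; positivity
  have r1 : Real.sqrt ((1 + Real.log β) / β) ≤ δ := by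
    refine Real.sqrt_le_iff.2 ⟨hδ0, ?_⟩
    rw [hδ, div_pow, Real.sq_sqrt hβ0.le]
    gcongr
    nlinarith
  have hQ : 0 ≤ ∑ j ∈ J, q j := Finset.sum_nonneg fun j _ => hq0 j
  simp only [hq']
  unfold Er
  have a1 : (l : ℝ) ^ 4 * (1 + Real.log β) / Real.sqrt β * ∑ j ∈ J, ∑ u,
      ‖(kf N j l : ℂ) * g j u‖ ≤ 9 * ρ ^ 2 * M * (∑ j ∈ J, q j) * (l ^ 5 * δ) := by
    have e1 : (l : ℝ) ^ 4 * (1 + Real.log β) / Real.sqrt β = l ^ 4 * δ := by rw [hδ]; ring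
    rw [e1]
    refine (mul_le_mul_of_nonneg_left s1 (by positivity)).trans (le_of_eq ?_)
    ring
  have a2 : (l : ℝ) ^ 4 * Real.sqrt ((1 + Real.log β) / β) * ∑ i ∈ J, ∑ j ∈ J, ∑ u,
      ‖(kf N i l : ℂ) * rs l (2 * m) (F i) u‖ * ‖(kf N j l : ℂ) * g j u‖ ≤
      9 * ρ ^ 2 * M * M * J.card * (∑ j ∈ J, q j) * (l ^ 5 * δ) := by
    have h1 : (l : ℝ) ^ 4 * Real.sqrt ((1 + Real.log β) / β) ≤ l ^ 4 * δ :=
      mul_le_mul_of_nonneg_left r1 (by positivity)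
    refine (mul_le_mul h1 s2 (Finset.sum_nonneg fun _ _ => Finset.sum_nonneg fun _ _ =>
      Finset.sum_nonneg fun _ _ => mul_nonneg (norm_nonneg _) (norm_nonneg _))
      (by positivity)).trans ?_
    have e1 : (l : ℝ) ^ 4 * δ * (9 * ρ ^ 2 * M * M * J.card * (∑ j ∈ J, q j) * ((l : ℝ) ^ 2)⁻¹) =
        9 * ρ ^ 2 * M * M * J.card * (∑ j ∈ J, q j) * (l ^ 2 * δ) := by
      field_simp
    rw [e1]
    have h2 : (l : ℝ) ^ 2 ≤ l ^ 5 := pow_le_pow_right₀ hl (by norm_num)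
    gcongr
  have e2 : (l : ℝ) ^ 5 * (1 + Real.log β) / Real.sqrt β = l ^ 5 * δ := by rw [hδ]; ring
  rw [e2, mul_assoc C]
  refine mul_le_mul_of_nonneg_left ?_ hC.le
  rw [add_mul]
  exact add_le_add a1 a2

end

end Run7.h630.MQ
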