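import Pool.Agent.Run7.h630.MQ.Fin

/-!
# The massive continuum limit at polynomially large `β`: the limit
-/

open MeasureTheory Matrix Filter Topology
open scoped ComplexConjugate FourierTransform ContDiff
open Run7.h4.YM Run7.h630.WL Run7.h630.ML

namespace Run7.h630.MQ

set_option linter.unusedSectionVars false
set_option linter.style.haveILetI false

noncomputable section

/-- the choice of a torus -/
lemma exists_torus {N k l : ℕ} [NeZero l] [MeasurableSpace (SU N)] [BorelSpace (SU N)]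
    {μ : Measure (SU N)} {β : ℝ} {ν : Measure (LinkZ l → SU N)} (hν : IsInfVol k μ β ν)
    {X : (LinkZ l → SU N) → ℝ} (hX : Continuous X) {ε : ℝ} (hε : 0 < ε) (M : ℕ) :
    ∃ m : ℕ, M ≤ m ∧ ∀ [NeZero m],
      |expect μ k β (fun U : Link (2 * m) (2 * m) l → SU N => Real.cos (X (per U))) -
        ∫ V, Real.cos (X V) ∂ν| ≤ ε ∧
      |expect μ k β (fun U : Link (2 * m) (2 * m) l → SU N => Real.sin (X (per U))) -
        ∫ V, Real.sin (X V) ∂ν| ≤ ε := by
  obtain ⟨s, hs, hlim⟩ := hν.lim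
  have h1 := Metric.tendsto_nhds.1 (hlim (fun V => Real.cos (X V)) (Real.continuous_cos.comp hX))
    ε hε
  have h2 := Metric.tendsto_nhds.1 (hlim (fun V => Real.sin (X V)) (Real.continuous_sin.comp hX))
    ε hε
  obtain ⟨j, ⟨h3, h4⟩, h5⟩ := ((h1.and h2).and (hs.eventually_ge_atTop M)).exists
  rw [Real.dist_eq] at h3 h4
  refine ⟨s j + 1, by omega, fun {inst} => ⟨?_, ?_⟩⟩
  · exact h3.le
  · exact h4.le

/-- **The continuum limit.** -/
theorem fin (hF : S_F) (hL : S_LIM) (N k : ℕ) (hN : 2 ≤ N) (hk : Nat.Coprime k N)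
    [MeasurableSpace (SU N)] [BorelSpace (SU N)] (μ : Measure (SU N)) [IsProbabilityMeasure μ]
    [μ.IsHaarMeasure] (β : ℕ → ℝ) (hβ : ∀ᶠ l : ℕ in atTop, (l : ℝ) ^ 11 ≤ β l)
    (ν : (l : ℕ) → Measure (LinkZ l → SU N))
    (hν : ∀ (l : ℕ) [NeZero l], IsInfVol k μ (β l) (ν l))
    (J : Finset (ℕ × ℤ)) (hJ : ∀ j ∈ J, 1 ≤ j.1 ∧ j.1 < N ∧ 0 < mass N k j)
    (F : ℕ × ℤ → E2 → ℂ) (hFF : ∀ j ∈ J, ContDiff ℝ ∞ (F j) ∧ HasCompactSupport (F j)) :
    Tendsto (fun l : ℕ => ∫ V,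
        Complex.exp (Complex.I * ((∑ j ∈ J, (field k (β l) V j (F j)).re : ℝ) : ℂ)) ∂(ν l)) atTop
      (𝓝 (Complex.exp ((-(1 / 4 * ∑ j ∈ J, ∫ ξ, ‖𝓕 (F j) ξ‖ ^ 2 /
            (4 * Real.pi ^ 2 * ‖ξ‖ ^ 2 + mass N k j ^ 2)) : ℝ) : ℂ))) := by
  haveI : NeZero N := ⟨by omega⟩
  obtain ⟨C, hC, H⟩ := hF N k hk μ
  -- the bounds of the test functions
  obtain ⟨M, hM0, hM⟩ : ∃ M : ℝ, 0 ≤ M ∧ ∀ j ∈ J, ∀ x, ‖F j x‖ ≤ M := by
    have h1 : ∀ j ∈ J, ∃ M : ℝ, ∀ x, ‖F j x‖ ≤ M := fun j hj =>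
      (hFF j hj).2.exists_bound_of_continuous (hFF j hj).1.continuous
    choose! M hM using h1
    exact ⟨∑ j ∈ J, |M j|, Finset.sum_nonneg fun _ _ => abs_nonneg _,
      fun j hj x => (hM j hj x).trans ((le_abs_self _).trans
      (Finset.single_le_sum (f := fun j => |M j|) (fun i _ => abs_nonneg _) hj))⟩
  obtain ⟨ρ, hρ1, hρ⟩ : ∃ ρ : ℕ, 1 ≤ ρ ∧ ∀ j ∈ J, ∀ x, F j x ≠ 0 → ‖x‖ ≤ ρ := by
    have h1 : ∀ j ∈ J, ∃ ρ : ℝ, ∀ x, F j x ≠ 0 → ‖x‖ ≤ ρ := fun j hj => by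
      obtain ⟨ρ, hρ⟩ := (hFF j hj).2.isBounded.subset_closedBall 0
      exact ⟨ρ, fun x hx => by
        have := hρ (subset_tsupport _ hx)
        rwa [mem_closedBall_zero_iff] at this⟩
    choose! ρ hρ using h1
    refine ⟨⌈∑ j ∈ J, |ρ j|⌉₊ + 1, by omega, fun j hj x hx => ?_⟩
    have h2 := (hρ j hj x hx).trans ((le_abs_self _).trans
      (Finset.single_le_sum (f := fun j => |ρ j|) (fun i _ => abs_nonneg _) hj))
    refine h2.trans ((Nat.le_ceil _).trans ?_)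
    push_cast
    linarith
  -- the field
  obtain ⟨X, hXd⟩ : ∃ X : (l : ℕ) → (LinkZ l → SU N) → ℝ,
      X = fun l V => ∑ j ∈ J, (field k (β l) V j (F j)).re := ⟨_, rfl⟩
  have hXc : ∀ (l : ℕ) [NeZero l], Continuous (X l) := by
    intro l _
    rw [hXd]
    exact continuous_finsetSum _ fun j hj =>
      Complex.continuous_re.comp (field_cont (hρ j hj) (β l) j)
  -- the choice of the tori
  have h0 : ∀ l : ℕ, ∃ m : ℕ, l ^ 2 + ρ * l + 2 ≤ m ∧ ∀ [NeZero l] [NeZero m],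
      |expect μ k (β l) (fun U : Link (2 * m) (2 * m) l → SU N => Real.cos (X l (per U))) -
        ∫ V, Real.cos (X l V) ∂(ν l)| ≤ 1 / ((l : ℝ) + 1) ∧
      |expect μ k (β l) (fun U : Link (2 * m) (2 * m) l → SU N => Real.sin (X l (per U))) -
        ∫ V, Real.sin (X l V) ∂(ν l)| ≤ 1 / ((l : ℝ) + 1) := by
    intro l
    rcases Nat.eq_zero_or_pos l with h0 | h0
    · subst h0
      exact ⟨_, le_rfl, fun {h1} => absurd rfl h1.out⟩
    · haveI : NeZero l := ⟨by omega⟩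
      obtain ⟨m, h1, h2⟩ := exists_torus (hν l) (hXc l)
        (show (0 : ℝ) < 1 / ((l : ℝ) + 1) by positivity) (l ^ 2 + ρ * l + 2)
      exact ⟨m, h1, fun {_ _} => h2⟩
  choose m hm1 hm2 using h0
  haveI hme : ∀ l, NeZero (m l) := fun l => ⟨by have := hm1 l; omega⟩
  haveI hme2 : ∀ l, NeZero (2 * m l) := fun l => ⟨by have := hm1 l; omega⟩
  -- the solutions
  have hmass : ∀ j : ℕ × ℤ, ∀ᶠ l : ℕ in atTop, mass N k j ≤ Real.pi / 2 * l := by
    intro j
    have h1 : Tendsto (fun l : ℕ => Real.pi / 2 * (l : ℝ)) atTop atTop :=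
      tendsto_natCast_atTop_atTop.const_mul_atTop (by positivity)
    exact h1.eventually_ge_atTop _
  have hx0 : ∀ (j : ℕ × ℤ) (l : ℕ), 0 < l → 0 < mass N k j → mass N k j ≤ Real.pi / 2 * l →
      0 < 2 - 2 * Real.cos (mass N k j / l) := by
    intro j l hl h1 h2
    have hl0 : (0 : ℝ) < l := by exact_mod_cast hl
    have h3 : 0 < mass N k j / l := by positivity
    have h4 : mass N k j / l ≤ Real.pi := by
      rw [div_le_iff₀ hl0]
      refine h2.trans ?_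
      nlinarith [Real.pi_pos, mul_pos Real.pi_pos hl0]
    have h5 : Real.cos (mass N k j / l) < Real.cos 0 :=
      Real.cos_lt_cos_of_nonneg_of_le_pi le_rfl h4 h3
    rw [Real.cos_zero] at h5
    linarith
  have hg : ∀ (j : ℕ × ℤ) (l : ℕ), ∃ g : ZMod (2 * m l) × ZMod (2 * m l) → ℂ,
      (0 < l ∧ 0 < mass N k j ∧ mass N k j ≤ Real.pi / 2 * l) →
        KK (2 - 2 * Real.cos (mass N k j / l)) g = rs l (2 * m l) (F j) := by
    intro j l
    by_cases h1 : 0 < l ∧ 0 < mass N k j ∧ mass N k j ≤ Real.pi / 2 * l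
    · obtain ⟨g, hg⟩ := KK_surj (hx0 j l h1.1 h1.2.1 h1.2.2) (rs l (2 * m l) (F j))
      exact ⟨g, fun _ => hg⟩
    · exact ⟨0, fun h2 => absurd h2 h1⟩
  choose g hg using hg
  -- the limit of the covariances
  obtain ⟨E, hE⟩ : ∃ E : ℕ → ℝ, E = fun l : ℕ => Real.exp (-(1 / 4 * ∑ j ∈ J, ((l : ℝ) ^ 4)⁻¹ *
      (∑ u : ZMod (2 * m l) × ZMod (2 * m l),
        conj (rs l (2 * m l) (F j) u) * g j l u).re)) := ⟨_, rfl⟩
  obtain ⟨E0, hE0⟩ : ∃ E0 : ℝ, E0 = Real.exp (-(1 / 4 * ∑ j ∈ J, ∫ ξ, ‖𝓕 (F j) ξ‖ ^ 2 /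
            (4 * Real.pi ^ 2 * ‖ξ‖ ^ 2 + mass N k j ^ 2))) := ⟨_, rfl⟩
  have hlim : Tendsto E atTop (𝓝 E0) := by
    rw [hE, hE0]
    refine (Real.continuous_exp.tendsto _).comp (Tendsto.neg (Tendsto.const_mul _
      (tendsto_finsetSum _ fun j hj => ?_)))
    exact hL (mass N k j) (hJ j hj).2.2 (F j) (hFF j hj).1 (hFF j hj).2 (fun l => 2 * m l)
      (fun l => by have := hm1 l; omega) (fun l => g j l)
      (((hmass j).and (eventually_gt_atTop 0)).mono fun l hl =>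
        hg j l ⟨hl.2, (hJ j hj).2.2, hl.1⟩)
  -- the errors
  obtain ⟨K, hK⟩ : ∃ K : ℝ, K = C * (9 * ρ ^ 2 * M * ∑ j ∈ J, Real.pi ^ 2 / (4 * mass N k j ^ 2) +
        9 * ρ ^ 2 * M * M * J.card * ∑ j ∈ J, Real.pi ^ 2 / (4 * mass N k j ^ 2)) := ⟨_, rfl⟩
  have hK0 : 0 ≤ K := by rw [hK]; positivity
  have hrate : Tendsto (fun l : ℕ => K * (45 * (l : ℝ) ^ (-(1 / 4) : ℝ)) + 1 / ((l : ℝ) + 1))
      atTop (𝓝 (K * (45 * 0) + 0)) := by
    refine Tendsto.add ?_ tendsto_one_div_add_atTop_nhds_zero_nat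
    exact (((tendsto_rpow_neg_atTop (by norm_num)).comp
      tendsto_natCast_atTop_atTop).const_mul 45).const_mul K
  simp only [mul_zero, add_zero] at hrate
  -- the main estimate
  have key : ∀ᶠ l : ℕ in atTop, ∀ [NeZero l],
      |∫ V, Real.cos (X l V) ∂(ν l) - E l| ≤
        K * (45 * (l : ℝ) ^ (-(1 / 4) : ℝ)) + 1 / ((l : ℝ) + 1) ∧
      |∫ V, Real.sin (X l V) ∂(ν l)| ≤
        K * (45 * (l : ℝ) ^ (-(1 / 4) : ℝ)) + 1 / ((l : ℝ) + 1) := by
    have ev : ∀ᶠ l : ℕ in atTop, ∀ j ∈ J, mass N k j ≤ Real.pi / 2 * l := by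
      rw [Finset.eventually_all]
      exact fun j _ => hmass j
    filter_upwards [ev, hβ, eventually_gt_atTop 0] with l hl1 hl2 hl3
    intro _
    have hl : (1 : ℝ) ≤ l := by exact_mod_cast hl3
    have hβ1 : 1 ≤ β l := (one_le_pow₀ hl).trans hl2
    have hm : 2 * (ρ * l) < 2 * m l := by have := hm1 l; nlinarith
    obtain ⟨t1, t2⟩ := hm2 l
    have hgj : ∀ j ∈ J, KK (2 - 2 * Real.cos (mass N k j / l)) (g j l) = rs l (2 * m l) (F j) :=
      fun j hj => hg j l ⟨hl3, (hJ j hj).2.2, hl1 j hj⟩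
    obtain ⟨a1, a2⟩ := H (m l) (m l) l (β l) hβ1 J
      (fun j hj => ⟨(hJ j hj).1, (hJ j hj).2.1, (hJ j hj).2.2, hl1 j hj⟩)
      (fun j u => (kf N j l : ℂ) * rs l (2 * m l) (F j) u)
      (fun j u => (kf N j l : ℂ) * g j l u) (fun j hj => by
        rw [KK_smul, hgj j hj])
    have hEr := Er_le hC hm hρ1 hβ1 (k := k) (N := N)
      (fun j hj => ⟨(hJ j hj).1, (hJ j hj).2.2, hl1 j hj⟩) hρ hM0 hM (fun j => g j l) hgj
    rw [← hK] at hEr
    have hr := rate hl hl2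
    have hEr2 := hEr.trans (mul_le_mul_of_nonneg_left hr hK0)
    -- the field on the torus
    have hXp : ∀ U : Link (2 * m l) (2 * m l) l → SU N, X l (per U) = Real.sqrt (β l) *
        ∑ j ∈ J, (∑ u, (kf N j l : ℂ) * rs l (2 * m l) (F j) u * md k U j u).re := by
      intro U
      rw [hXd]
      beta_reduce
      rw [Finset.mul_sum]
      refine Finset.sum_congr rfl fun j hj => ?_
      rw [field_per hm (hρ j hj), Complex.re_ofReal_mul]
      rfl
    simp only [hXp] at t1 t2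
    -- the covariance
    have hexp : Real.exp (-∑ j ∈ J, N * j.1 ^ 2 * l ^ 2 / 4 *
        (∑ u, (kf N j l : ℂ) * rs l (2 * m l) (F j) u * conj ((kf N j l : ℂ) * g j l u)).re) =
        E l := by
      rw [hE]
      beta_reduce
      congr 2
      rw [Finset.mul_sum]
      refine Finset.sum_congr rfl fun j hj => ?_
      have hc : (1 : ℝ) ≤ (j.1 : ℝ) := by exact_mod_cast (hJ j hj).1
      have hN0 : (0 : ℝ) < N := by exact_mod_cast NeZero.pos N
      have e1 : ∑ u, (kf N j l : ℂ) * rs l (2 * m l) (F j) u * conj ((kf N j l : ℂ) * g j l u) =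
          ((kf N j l ^ 2 : ℝ) : ℂ) * conj (∑ u, conj (rs l (2 * m l) (F j) u) * g j l u) := by
        rw [map_sum, Finset.mul_sum]
        refine Finset.sum_congr rfl fun u _ => ?_
        rw [map_mul, map_mul, Complex.conj_ofReal, Complex.conj_conj]
        push_cast
        ring
      rw [e1, Complex.re_ofReal_mul, Complex.conj_re, ← mul_assoc, ← mul_assoc]
      congr 1
      have e4 : Real.sqrt N ^ 2 = N := Real.sq_sqrt hN0.le
      have hs : 0 < Real.sqrt N := Real.sqrt_pos.2 hN0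
      have hl0 : (0 : ℝ) < l := by linarith
      unfold kf
      rw [inv_pow, mul_pow, mul_pow, e4]
      field_simp
    rw [hexp] at a1
    constructor
    · have h1 := abs_le.1 t1
      have h2 := abs_le.1 (a1.trans hEr2)
      rw [abs_le]
      constructor <;> linarith [h1.1, h1.2, h2.1, h2.2]
    · have h1 := abs_le.1 t2
      have h2 := abs_le.1 (a2.trans hEr2)
      rw [abs_le]
      constructor <;> linarith [h1.1, h1.2, h2.1, h2.2]
  -- conclusion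
  have c1 : Tendsto (fun l : ℕ => ∫ V, Real.cos (X l V) ∂(ν l)) atTop (𝓝 E0) := by
    have h1 : Tendsto (fun l : ℕ => ∫ V, Real.cos (X l V) ∂(ν l) - E l) atTop (𝓝 0) := by
      refine squeeze_zero_norm' ?_ hrate
      filter_upwards [key, eventually_gt_atTop 0] with l h1 h2
      haveI : NeZero l := ⟨by omega⟩
      exact h1.1
    have h2 := h1.add hlim
    simpa using h2
  have c2 : Tendsto (fun l : ℕ => ∫ V, Real.sin (X l V) ∂(ν l)) atTop (𝓝 0) := by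
    refine squeeze_zero_norm' ?_ hrate
    filter_upwards [key, eventually_gt_atTop 0] with l h1 h2
    haveI : NeZero l := ⟨by omega⟩
    exact h1.2
  have c3 : Tendsto (fun l : ℕ => ((∫ V, Real.cos (X l V) ∂(ν l) : ℝ) : ℂ) +
      ((∫ V, Real.sin (X l V) ∂(ν l) : ℝ) : ℂ) * Complex.I) atTop
      (𝓝 ((E0 : ℂ) + ((0 : ℝ) : ℂ) * Complex.I)) :=
    ((Complex.continuous_ofReal.tendsto _).comp c1).add
      (((Complex.continuous_ofReal.tendsto _).comp c2).mul_const _)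
  rw [Complex.ofReal_zero, zero_mul, add_zero, hE0, Complex.ofReal_exp] at c3
  refine c3.congr' ?_
  filter_upwards [eventually_gt_atTop 0] with l hl
  haveI : NeZero l := ⟨by omega⟩
  haveI := (hν l).prob
  rw [← int_exp (hXc l).measurable, hXd]

end

end Run7.h630.MQ
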