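import Pool.Agent.Run7.h630.ML.Defs

/-!
# The massive continuum limit at polynomially large `β`: interface

`SU(N)` lattice gauge theory on the torus `Z/n x Z/L x (Z/l)²` with 't Hooft flux (the model of
`Run7.h4.YM.Defs`). Everything takes place on a finite torus.
-/

open MeasureTheory Matrix Filter Topology
open scoped Matrix.Norms.Frobenius ComplexConjugate

namespace Run7.h630.MQ

open Run7.h4.YM Run7.h630.ML

noncomputable section

/-- complex matrices -/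
abbrev Mt (N : ℕ) : Type := Matrix (Fin N) (Fin N) ℂ

variable {N n L l : ℕ}

/-- the loop in the direction `2` based at `x` -/
def lp (U : Link n L l → SU N) (x : Site n L l) : SU N :=
  ((List.range l).map fun t : ℕ => U (2, x + t • dir 2)).prod

/-- the trace of the power of the loop -/
def W (c : ℕ) (U : Link n L l → SU N) (x : Site n L l) : ℂ := trace (lp U x ^ c).1

/-- `exp (2 π i k / N)` -/
def om (N k : ℕ) : ℂ := Complex.exp (2 * Real.pi * Complex.I * (k / N))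

/-- the twist of the plaquette `(j, 2)` at `x` -/
def zt (N k : ℕ) (x : Site n L l) (j : Fin 4) : ℂ := if j = 3 ∧ x.2.2 = 0 then om N k else 1

/-- the twist of the ribbon of the plaquettes `(j, 2)` through `x` -/
def Zt (N k : ℕ) (x : Site n L l) (j : Fin 4) : ℂ := if j = 3 ∧ x.2.2.2 = 0 then om N k else 1

/-- the directions different from `2` -/
def D3 : Finset (Fin 4) := {0, 1, 3}

/-- the deviation of the plaquette `(j, 2)` at `x` from the vacuum -/
def Fd (k : ℕ) (U : Link n L l → SU N) (x : Site n L l) (j : Fin 4) : Mt N :=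
  conj (zt N k x j) • (plaq U x j 2).1 - 1

/-- the total deviation of the ribbon -/
def fr (k : ℕ) (U : Link n L l → SU N) (x : Site n L l) (j : Fin 4) : ℝ :=
  ∑ t ∈ Finset.range l, ‖Fd k U (x + t • dir 2) j‖

/-- the energy of the fibre over `u` (of the plaquettes `(j, 2)`) -/
def Te [NeZero l] (k : ℕ) (U : Link n L l → SU N) (u : ZMod n × ZMod L) : ℝ :=
  ∑ y : ZMod l × ZMod l, ∑ j ∈ D3, ‖Fd k U (u.1, u.2, y) j‖ ^ 2

/-- the orthogonal projection onto the Lie algebra of `SU(N)` -/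
def pr (A : Mt N) : Mt N :=
  (1 / 2 : ℂ) • (A - Aᴴ) - (trace (A - Aᴴ) / (2 * N)) • (1 : Mt N)

/-- the derivative of `W c` at `x` in the direction `K`: the links `(2, x)` move by
`U ↦ exp (s K x) U` -/
def dW (c : ℕ) (U : Link n L l → SU N) (K : Site n L l → Mt N) (x : Site n L l) : ℂ :=
  c * ∑ t ∈ Finset.range l, trace (K (x + t • dir 2) * (lp U (x + t • dir 2) ^ c).1)

/-- the derivative of the action in the direction `K` -/
def dS [NeZero n] [NeZero L] [NeZero l] (k : ℕ) (U : Link n L l → SU N)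
    (K : Site n L l → Mt N) : ℝ :=
  -∑ x, ∑ j ∈ D3, (conj (zt N k x j) * trace ((U (j, x)).1 * K (x + dir j) * (U (j, x)).1ᴴ *
    (plaq U x j 2).1 - (plaq U x j 2).1 * K x)).re

/-- the vector field -/
def Yv (c : ℕ) (a : Site n L l → ℂ) (U : Link n L l → SU N) (x : Site n L l) : Mt N :=
  pr (a x • (lp U x ^ c).1)

/-- the massive lattice operator on the torus `Z/n x Z/L` -/
def KK (x0 : ℝ) (g : ZMod n × ZMod L → ℂ) (u : ZMod n × ZMod L) : ℂ :=
  (4 + x0) * g u - g (u + (1, 0)) - g (u - (1, 0)) - g (u + (0, 1)) - g (u - (0, 1))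

/-- the phase of the mode `j` at the height `y` -/
def ph (N k : ℕ) (j : ℕ × ℤ) (y : ZMod l) : ℂ :=
  Complex.exp (Complex.I * (mass N k j * (y - 1 : ZMod l).val / l))

/-- the mode `j` over the point `u` -/
def md (k : ℕ) (U : Link n L l → SU N) (j : ℕ × ℤ) (u : ZMod n × ZMod L) : ℂ :=
  ∑ t ∈ Finset.range l, Complex.exp (Complex.I * (mass N k j * t / l)) *
    W j.1 U (u.1, u.2, 0, 1 + (t : ZMod l))

/-- the derivative of the mode -/
def dmd (k : ℕ) (U : Link n L l → SU N) (K : Site n L l → Mt N) (j : ℕ × ℤ)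
    (u : ZMod n × ZMod L) : ℂ :=
  ∑ t ∈ Finset.range l, Complex.exp (Complex.I * (mass N k j * t / l)) *
    dW j.1 U K (u.1, u.2, 0, 1 + (t : ZMod l))

/-- the coefficients of the vector field of the mode `j` -/
def av (N k : ℕ) (j : ℕ × ℤ) (g : ZMod n × ZMod L → ℂ) (x : Site n L l) : ℂ :=
  g (x.1, x.2.1) * ph N k j x.2.2.2

/-- T1: transport of a power of the loop along the direction `j` -/
def S_T1 : Prop := ∀ (N n L l k : ℕ) [NeZero N] [NeZero n] [NeZero L] [NeZero l]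
  (U : Link n L l → SU N) (x : Site n L l), ∀ j ∈ D3, ∀ c : ℕ,
  ‖(U (j, x)).1 * (lp U (x + dir j) ^ c).1 * (U (j, x)).1ᴴ - Zt N k x j ^ c • (lp U x ^ c).1‖ ≤
    c * fr k U x j

/-- T2: the difference of `W` and the curvature -/
def S_T2 : Prop := ∀ (N n L l k : ℕ) [NeZero N] [NeZero n] [NeZero L] [NeZero l]
  (U : Link n L l → SU N) (x : Site n L l), ∀ j ∈ D3, ∀ c : ℕ,
  ‖conj (Zt N k x j) ^ c * W c U (x + dir j) - W c U x -
      c * ∑ t ∈ Finset.range l, trace (Fd k U (x + t • dir 2) j *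
        (lp U (x + t • dir 2) ^ c).1)‖ ≤ c * (c + N) * fr k U x j ^ 2

/-- T3: the difference of `W` is small -/
def S_T3 : Prop := ∀ (N n L l k : ℕ) [NeZero N] [NeZero n] [NeZero L] [NeZero l]
  (U : Link n L l → SU N) (x : Site n L l), ∀ j ∈ D3, ∀ c : ℕ,
  ‖conj (Zt N k x j) ^ c * W c U (x + dir j) - W c U x‖ ≤ c * N * fr k U x j

/-- T4: the modes of nonzero momentum are small -/
def S_T4 : Prop := ∀ (N n L l k : ℕ) [NeZero N] [NeZero n] [NeZero L] [NeZero l]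
  (U : Link n L l → SU N) (u : ZMod n × ZMod L) (c : ℕ) (q : ℝ),
  Complex.exp (Complex.I * (q * l)) = om N k ^ c →
  ‖Complex.exp (Complex.I * q) - 1‖ * ‖∑ t ∈ Finset.range l, Complex.exp (Complex.I * (q * t)) *
      W c U (u.1, u.2, 0, 1 + (t : ZMod l))‖ ≤
    c * N * ∑ t ∈ Finset.range l, fr k U (u.1, u.2, 0, 1 + (t : ZMod l)) 3

/-- T5: `W c` is small -/
def S_T5 : Prop := ∀ (N n L l k : ℕ) [NeZero N] [NeZero n] [NeZero L] [NeZero l],
  Nat.Coprime k N → ∀ (U : Link n L l → SU N) (x : Site n L l) (c : ℕ), 1 ≤ c → c < N →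
  ‖W c U x‖ ≤ N ^ 3 * ∑ t ∈ Finset.range l, fr k U (x.1, x.2.1, 0, 1 + (t : ZMod l)) 3

/-- A: the derivative of the action along the vector field is the mode of the source -/
def S_A : Prop := ∀ (N n L l k : ℕ) [NeZero N] [NeZero n] [NeZero L] [NeZero l],
  Nat.Coprime k N → ∀ (U : Link n L l → SU N) (j : ℕ × ℤ), 1 ≤ j.1 → j.1 < N →
  ∀ g : ZMod n × ZMod L → ℂ,
  |j.1 * dS k U (Yv j.1 (av N k j g) U) +
      ∑ u, (KK (2 - 2 * Real.cos (mass N k j / l)) g u * md k U j u).re| ≤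
    3 * N ^ 4 * l ^ 2 * ∑ u, (4 * ‖g u‖ + ‖g (u + (1, 0))‖ + ‖g (u + (0, 1))‖) * Te k U u

/-- B: the derivative of the modes along the vector field -/
def S_B : Prop := ∀ (N n L l k : ℕ) [NeZero N] [NeZero n] [NeZero L] [NeZero l],
  Nat.Coprime k N → ∀ (U : Link n L l → SU N) (i j : ℕ × ℤ), 1 ≤ i.1 → i.1 < N → 1 ≤ j.1 →
  j.1 < N → 0 < mass N k i → mass N k i ≤ Real.pi / 2 * l → 0 < mass N k j →
  mass N k j ≤ Real.pi / 2 * l → ∀ (g : ZMod n × ZMod L → ℂ) (u : ZMod n × ZMod L),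
  ‖dmd k U (Yv j.1 (av N k j g) U) i u +
      (if i = j then (1 / 2 * N * j.1 * l ^ 2 : ℂ) * conj (g u) else 0)‖ ≤
    N ^ 5 * l ^ 3 * ‖g u‖ * Real.sqrt (Te k U u)

/-! ### the flow -/

/-- the one-parameter group of `A` -/
def ex (t : ℝ) (A : Mt N) : SU N :=
  open Classical in
  if h : NormedSpace.exp (t • A) ∈ specialUnitaryGroup (Fin N) ℂ then ⟨_, h⟩ else 1

/-- the flow which moves the links `(2, x)` by `exp (t K x)` -/
def fl (K : Site n L l → Mt N) (t : ℝ) (U : Link n L l → SU N) : Link n L l → SU N := fun e =>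
  if e.1 = 2 then ex t (K e.2) * U e else U e

/-- `K` has its values in the Lie algebra of `SU(N)` -/
def Sk (K : Site n L l → Mt N) : Prop := ∀ x, (K x)ᴴ = -K x ∧ trace (K x) = 0

/-- C0: the one-parameter group lies in `SU(N)` -/
def S_C0 : Prop := ∀ (N : ℕ) (A : Mt N), Aᴴ = -A → trace A = 0 → ∀ t : ℝ,
  (ex t A).1 = NormedSpace.exp (t • A)

/-- C1: the derivative of `W` -/
def S_C1 : Prop := ∀ (N n L l : ℕ) [NeZero N] [NeZero n] [NeZero L] [NeZero l]
  (U : Link n L l → SU N) (K : Site n L l → Mt N), Sk K → ∀ (c : ℕ) (x : Site n L l),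
  HasDerivAt (fun t : ℝ => W c (fl K t U) x) (dW c U K x) 0

/-- C2: the derivative of the action -/
def S_C2 : Prop := ∀ (N n L l k : ℕ) [NeZero N] [NeZero n] [NeZero L] [NeZero l]
  (U : Link n L l → SU N) (K : Site n L l → Mt N), Sk K →
  HasDerivAt (fun t : ℝ => action k (fl K t U)) (dS k U K) 0

/-- C3: the derivative of the vector field at a site, in the direction of the link `(2, x)` -/
def S_C3 : Prop := ∀ (N n L l : ℕ) [NeZero N] [NeZero n] [NeZero L] [NeZero l]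
  (U : Link n L l → SU N) (x : Site n L l) (A : Mt N), Aᴴ = -A → trace A = 0 →
  ∀ (c : ℕ) (a : Site n L l → ℂ),
  HasDerivAt (fun t : ℝ => Yv c a (fl (Pi.single x A) t U) x)
    (pr (a x • ∑ r ∈ Finset.range c, (lp U x ^ r).1 * A * (lp U x ^ (c - r)).1)) 0

/-- C4: integration by parts -/
def S_C4 : Prop := ∀ (N n L l : ℕ) [NeZero N] [NeZero n] [NeZero L] [NeZero l]
  [MeasurableSpace (SU N)] [BorelSpace (SU N)] (μ : Measure (SU N)) [IsProbabilityMeasure μ]
  [μ.IsHaarMeasure] (K : Site n L l → Mt N), Sk K →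
  ∀ f Df : (Link n L l → SU N) → ℂ, Continuous f → Continuous Df →
  (∀ U, HasDerivAt (fun t : ℝ => f (fl K t U)) (Df U) 0) →
  ∫ U, Df U ∂(Measure.pi fun _ : Link n L l => μ) = 0

/-- C: the Schwinger-Dyson equation for the vector field `Yv c a` and the function
`exp (i r X)`, `X = Re ∑ w md`. From C0, ..., C4: for each site `x` and each of the `2 N²`
matrices `E = ε E_kl`, `ε = 1, i`, apply C4 to `K = Pi.single x (pr E)` and
`f = Re (conj ε (Yv c a U x)_kl) exp (i r X) exp (- β S)`; sum, with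
`∑ Re (conj ε Y_kl) pr (ε E_kl) = pr Y = Y` and the linearity of `dS`, `dmd` in `K`. -/
def S_C : Prop := ∀ (N n L l k : ℕ) [NeZero N] [NeZero n] [NeZero L] [NeZero l]
  [MeasurableSpace (SU N)] [BorelSpace (SU N)] (μ : Measure (SU N)) [IsProbabilityMeasure μ]
  [μ.IsHaarMeasure] (β : ℝ) (c : ℕ) (a : Site n L l → ℂ) (J : Finset (ℕ × ℤ))
  (w : ℕ × ℤ → ZMod n × ZMod L → ℂ),
  ∃ D : (Link n L l → SU N) → ℝ, Continuous D ∧ (∀ U, |D U| ≤ 2 * N ^ 2 * c * ∑ x, ‖a x‖) ∧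
    ∀ r : ℝ, ∫ U, (((β * dS k U (Yv c a U) - D U : ℝ) : ℂ) -
        Complex.I * ((r * ∑ i ∈ J, (∑ u, w i u * dmd k U (Yv c a U) i u).re : ℝ) : ℂ)) *
      Complex.exp (Complex.I * ((r * ∑ i ∈ J, (∑ u, w i u * md k U i u).re : ℝ) : ℂ)) *
        ((Real.exp (-(β * action k U)) : ℝ) : ℂ) ∂(Measure.pi fun _ : Link n L l => μ) = 0

/-- E1: the measure of small balls. Proof: divide the cube of the `2 N²` real coordinates of the
entries (all in `[-1, 1]`) in cells of side `≤ η / (2 N)`; a cell has distance `< η` to each of its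
points in `SU(N)`, so its measure is at most that of the ball of radius `η` at `1`. -/
def S_E1 : Prop := ∀ (N : ℕ) [NeZero N] [MeasurableSpace (SU N)] [BorelSpace (SU N)]
  (μ : Measure (SU N)) [IsProbabilityMeasure μ] [μ.IsHaarMeasure],
  ∃ c : ℝ, 0 < c ∧ ∀ η : ℝ, 0 < η → η ≤ 1 →
    c * η ^ (2 * N ^ 2) ≤ μ.real {g : SU N | ‖g.1 - 1‖ < η}

/-- E: the energy of a fibre, on even tori. Proof: translations in the base and Jensen:
`(β/2) E S ≤ log (Z(β/2) / Z(β)) ≤ - log Z(β)`, the lower bound of `Z(β)` is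
`Run7.h4.YM.ZZ_lower` with `η² = 1/β`, and E1. -/
def S_E : Prop := ∀ (N k : ℕ) [NeZero N], Nat.Coprime k N → ∀ [MeasurableSpace (SU N)]
  [BorelSpace (SU N)] (μ : Measure (SU N)) [IsProbabilityMeasure μ] [μ.IsHaarMeasure],
  ∃ C : ℝ, 0 < C ∧ ∀ (m m' l : ℕ) [NeZero m] [NeZero m'] [NeZero l] (β : ℝ), 1 ≤ β →
    ∀ u : ZMod (2 * m) × ZMod (2 * m'),
    expect μ k β (fun U : Link (2 * m) (2 * m') l → SU N => Te k U u) ≤
      C * l ^ 2 * (1 + Real.log β) / β

/-- the error -/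
def Er (C : ℝ) (m m' l : ℕ) [NeZero m] [NeZero m'] (β : ℝ) (J : Finset (ℕ × ℤ))
    (w g : ℕ × ℤ → ZMod (2 * m) × ZMod (2 * m') → ℂ) : ℝ :=
  C * (l ^ 4 * (1 + Real.log β) / Real.sqrt β * ∑ j ∈ J, ∑ u, ‖g j u‖ +
    l ^ 4 * Real.sqrt ((1 + Real.log β) / β) * ∑ i ∈ J, ∑ j ∈ J, ∑ u, ‖w i u‖ * ‖g j u‖)

/-- F: the characteristic function on the torus. From A, B, C, E: `X = √β Re ∑ w_j md_j`,
`w_j = KK g_j`; with the vector field `∑_j Yv c_j (av j (- (c_j / √β) g_j))` one has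
`β dS = X + O`, `dX = σ² + O`, `σ² = ∑_j N c_j² l² / 2 Re ∑ w_j conj g_j`; then
`φ(r) = E exp (i r X)` satisfies `|φ' + r σ² φ| ≤ Er` for `0 ≤ r ≤ 1`, hence
`|φ(1) - exp (- σ² / 2)| ≤ Er`. -/
def S_F : Prop := ∀ (N k : ℕ) [NeZero N], Nat.Coprime k N → ∀ [MeasurableSpace (SU N)]
  [BorelSpace (SU N)] (μ : Measure (SU N)) [IsProbabilityMeasure μ] [μ.IsHaarMeasure],
  ∃ C : ℝ, 0 < C ∧ ∀ (m m' l : ℕ) [NeZero m] [NeZero m'] [NeZero l] (β : ℝ), 1 ≤ β →
    ∀ J : Finset (ℕ × ℤ), (∀ j ∈ J, 1 ≤ j.1 ∧ j.1 < N ∧ 0 < mass N k j ∧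
      mass N k j ≤ Real.pi / 2 * l) →
    ∀ w g : ℕ × ℤ → ZMod (2 * m) × ZMod (2 * m') → ℂ,
    (∀ j ∈ J, w j = KK (2 - 2 * Real.cos (mass N k j / l)) (g j)) →
    |expect μ k β (fun U : Link (2 * m) (2 * m') l → SU N =>
        Real.cos (Real.sqrt β * ∑ j ∈ J, (∑ u, w j u * md k U j u).re)) -
      Real.exp (-∑ j ∈ J, N * j.1 ^ 2 * l ^ 2 / 4 * (∑ u, w j u * conj (g j u)).re)| ≤
        Er C m m' l β J w g ∧
    |expect μ k β (fun U : Link (2 * m) (2 * m') l → SU N =>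
        Real.sin (Real.sqrt β * ∑ j ∈ J, (∑ u, w j u * md k U j u).re))| ≤
        Er C m m' l β J w g

end

end Run7.h630.MQ
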